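import Pool.Agent.Q53.DP.Final

/-!
# Del Pezzo surfaces of degree one with six generalized Eckardt points

Over an algebraically closed field `K` the del Pezzo surfaces of degree one are the smooth surfaces
`y² + a₁ x y + a₃ y = x³ + a₂ x² + a₄ x + a₆` in the weighted projective space `P(1,1,2,3)` with
coordinates `z, w, x, y` (`a_i` a binary form of degree `i` in `z, w`), and their exceptional curves
are the curves `x = p(z, w)`, `y = q(z, w)` on the surface, `p` and `q` binary forms of degree `2`
and `3`.

Theorem. Over every algebraically closed field `K` of characteristic different from `2` and `3`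
(characteristic `0` and `5` included) there is a del Pezzo surface of degree one with (at least) six
distinct generalized Eckardt points. Three of them are on the anticanonical curve `w = 0` and three
are on the anticanonical curve `z = 0`. Each of them is on exactly ten exceptional curves.

The surface is `y² = x³ - z⁶ + 3 z⁴ w² - 3 ω z² w⁴ + w⁶` where `ω` is a primitive cube root of unity
(with `ω ≠ 4` in characteristic `7`) and the points are `(1 : 0 : ζ : 0)` and `(0 : 1 : - ζ : 0)`,
`ζ³ = 1`.
-/

set_option autoImplicit false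

namespace Pool.Agent.Results.MP_3c244b_ag.SixEckardtPoints

open Q53.DP

universe u

theorem same_one {K : Type u} [Field K] {a b : K} (h : SamePoint ![1, 0, a, 0] ![1, 0, b, 0]) :
    a = b := by
  obtain ⟨t, -, h⟩ := h
  have h0 := congrFun h 0
  have h2 := congrFun h 2
  simp at h0 h2
  rw [h2, ← h0]
  ring

theorem same_two {K : Type u} [Field K] {a b : K} (h : SamePoint ![0, 1, a, 0] ![0, 1, b, 0]) :
    a = b := by
  obtain ⟨t, -, h⟩ := h
  have h0 := congrFun h 1
  have h2 := congrFun h 2
  simp at h0 h2
  rw [h2, ← h0]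
  ring

theorem not_same {K : Type u} [Field K] {a b : K} (h : SamePoint ![1, 0, a, 0] ![0, 1, b, 0]) :
    False := by
  obtain ⟨t, -, h⟩ := h
  have h0 := congrFun h 1
  simp at h0

theorem not_same' {K : Type u} [Field K] {a b : K} (h : SamePoint ![0, 1, a, 0] ![1, 0, b, 0]) :
    False := by
  obtain ⟨t, -, h⟩ := h
  have h0 := congrFun h 0
  simp at h0

theorem exists_cube_root (K : Type u) [Field K] [IsAlgClosed K] (h2 : (2 : K) ≠ 0)
    (h3 : (3 : K) ≠ 0) : ∃ o : K, o ^ 2 + o + 1 = 0 ∧ 4 * (-3 * o) - 15 ≠ 0 := by
  obtain ⟨s, hs⟩ := IsAlgClosed.exists_pow_nat_eq (-3 : K) (n := 2) (by norm_num)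
  have h4 : (4 : K) ≠ 0 := by
    have : (4 : K) = 2 * 2 := by norm_num
    rw [this]
    exact mul_ne_zero h2 h2
  have ho : ((s - 1) / 2) ^ 2 + (s - 1) / 2 + 1 = 0 := by
    field_simp
    linear_combination hs
  by_cases hc : 4 * (-3 * ((s - 1) / 2)) - 15 = 0
  · refine ⟨-1 - (s - 1) / 2, ?_, ?_⟩
    · linear_combination ho
    · intro hc'
      have h5 : 2 * 3 * 3 = (0 : K) := by linear_combination -hc - hc'
      exact (mul_ne_zero (mul_ne_zero h2 h3) h3) h5
  · exact ⟨_, ho, hc⟩

theorem result (K : Type u) [Field K] [IsAlgClosed K] (h2 : (2 : K) ≠ 0) (h3 : (3 : K) ≠ 0) :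
    ∃ (S : Sextic K) (P : Fin 6 → Fin 4 → K), S.IsSmooth ∧
      (∀ i, S.IsGeneralizedEckardt (P i)) ∧
      (∀ i j, SamePoint (P i) (P j) → i = j) ∧
      (∀ i, i < 3 → P i 1 = 0) ∧ (∀ i, 3 ≤ i → P i 0 = 0) := by
  obtain ⟨o, ho, e2⟩ := exists_cube_root K h2 h3
  obtain ⟨i, hi⟩ := IsAlgClosed.exists_pow_nat_eq (-1 : K) (n := 2) (by norm_num)
  have ho3 : o ^ 3 = 1 := by linear_combination (o - 1) * ho
  have ho1 : 1 ≠ o := by
    intro h
    apply h3
    rw [← h] at ho
    linear_combination ho
  have ho0 : o ≠ 0 := by
    rintro rfl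
    norm_num at ho
  have ho2 : o ≠ o ^ 2 := by
    intro h
    apply ho1
    have h4 : o * (1 - o) = 0 := by linear_combination h
    have h5 := (mul_eq_zero.1 h4).resolve_left ho0
    linear_combination h5
  have ho4 : 1 ≠ o ^ 2 := by
    intro h
    apply ho1
    linear_combination -ho3 - o * h
  have e1 : -3 * o + 3 ≠ 0 := by
    intro h
    apply ho1
    have h4 : 3 * (1 - o) = 0 := by linear_combination h
    have h5 := (mul_eq_zero.1 h4).resolve_left h3
    linear_combination h5
  have c1 : (1 : K) ^ 3 = 1 := one_pow 3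
  have c2 : (o ^ 2) ^ 3 = 1 := by linear_combination (o ^ 3 + 1) * ho3
  refine ⟨surf (-3 * o), ![![1, 0, 1, 0], ![1, 0, o, 0], ![1, 0, o ^ 2, 0], ![0, 1, -1, 0],
    ![0, 1, -o, 0], ![0, 1, -o ^ 2, 0]], isSmooth_surf _ h2 h3 e1 e2, ?_, ?_, ?_, ?_⟩
  · intro j
    fin_cases j
    · exact eck_one _ 1 h2 h3 e1 e2 c1
    · exact eck_one _ o h2 h3 e1 e2 ho3
    · exact eck_one _ (o ^ 2) h2 h3 e1 e2 c2
    · exact eck_two o 1 i h2 h3 ho hi e2 c1
    · exact eck_two o o i h2 h3 ho hi e2 ho3
    · exact eck_two o (o ^ 2) i h2 h3 ho hi e2 c2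
  · intro j k h
    fin_cases j <;> fin_cases k
    · rfl
    · exact absurd (same_one h) ho1
    · exact absurd (same_one h) ho4
    · exact (not_same h).elim
    · exact (not_same h).elim
    · exact (not_same h).elim
    · exact absurd (same_one h).symm ho1
    · rfl
    · exact absurd (same_one h) ho2
    · exact (not_same h).elim
    · exact (not_same h).elim
    · exact (not_same h).elim
    · exact absurd (same_one h).symm ho4
    · exact absurd (same_one h).symm ho2
    · rfl
    · exact (not_same h).elim
    · exact (not_same h).elim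
    · exact (not_same h).elim
    · exact (not_same' h).elim
    · exact (not_same' h).elim
    · exact (not_same' h).elim
    · rfl
    · exact absurd (neg_injective (same_two h)) ho1
    · exact absurd (neg_injective (same_two h)) ho4
    · exact (not_same' h).elim
    · exact (not_same' h).elim
    · exact (not_same' h).elim
    · exact absurd (neg_injective (same_two h)).symm ho1
    · rfl
    · exact absurd (neg_injective (same_two h)) ho2
    · exact (not_same' h).elim
    · exact (not_same' h).elim
    · exact (not_same' h).elim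
    · exact absurd (neg_injective (same_two h)).symm ho4
    · exact absurd (neg_injective (same_two h)).symm ho2
    · rfl
  · intro j hj
    fin_cases j
    · rfl
    · rfl
    · rfl
    · exact absurd hj (by decide)
    · exact absurd hj (by decide)
    · exact absurd hj (by decide)
  · intro j hj
    fin_cases j
    · exact absurd hj (by decide)
    · exact absurd hj (by decide)
    · exact absurd hj (by decide)
    · rfl
    · rfl
    · rfl

end Pool.Agent.Results.MP_3c244b_ag.SixEckardtPoints
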